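import Pool.Agent.Helper46.SP.A07a

/-!
# (A09b) totality of the choice functions
-/

open Cardinal Set
open scoped Pointwise

namespace Pool.Agent.Helper46.SP

theorem st_tot (hfull : ST_full) (hRF : ST_rfacts) (hRN : ST_RN) : ST_tot := by
  classical
  intro Q S ζ c hc B l hl hB
  have hC := st_cfacts Q S
  have hR := hRF Q S
  have hN := hRN Q
  set ξ : Q.Lev := l.1 with hξ
  set 𝒞 : Set (RC S) := CC (ξ : Stg Q) with h𝒞
  have hOK := CC_OK hc ξ
  have hcut : cut c (ξ : Stg Q) ∈ (CC (ξ : Stg Q) : Set (RC S)) := CC_cut _ hc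
  -- the regular sets
  let φ : RN Q → Set (P0 Q × RC S) := fun v => {y | y.2 ∈ 𝒞 ∧
    (∀ t' ∈ c, t'.2.1 = l → ∀ p ≤ y.1, ∀ d ∈ 𝒞, y.2 ⊆ d → FE 𝒞 (S.G B) (S.G t'.1) p d →
      v.Feq t'.2.2 p) ∧
    (∀ p ≤ y.1, ∀ d ∈ 𝒞, y.2 ⊆ d → ∀ x : RN Q, FM 𝒞 x (S.G B) p d → FM 𝒞 v (S.G B) p d)}
  have hφ1 : ∀ v, RegB (ξ : Stg Q) (φ v) := by
    intro v
    refine ⟨fun x hx => hx.1, ?_, ?_⟩
    · rintro ⟨p0, d0⟩ ⟨_, h2, h3⟩ p hp d hd hdd
      refine ⟨hd, ?_, ?_⟩
      · intro t' ht' hl' p' hp' d' hd' hdd' hFE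
        exact h2 t' ht' hl' p' (le_trans hp' hp) d' hd' (Set.Subset.trans hdd hdd') hFE
      · intro p' hp' d' hd' hdd' x hx
        exact h3 p' (le_trans hp' hp) d' hd' (Set.Subset.trans hdd hdd') x hx
    · intro p d hd hdense
      refine ⟨hd, ?_, ?_⟩
      · intro t' ht' hl' p' hp' d' hd' hdd' hFE
        apply hN.dense
        intro q hq
        obtain ⟨p'', hp'', d'', hd'', hdd'', _, h2, _⟩ :=
          hdense q (hq.trans hp') d' hd' hdd'
        refine ⟨p'', hp'', ?_⟩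
        exact h2 t' ht' hl' p'' le_rfl d'' hd'' (Set.Subset.refl _)
          (FE_mono hFE (hp''.trans hq) hdd'')
      · intro p' hp' d' hd' hdd' x hx
        refine ((hR.regFM (ξ : Stg Q) v (S.G B)).dense p' d' hd' ?_).2
        intro q hq e he hde
        obtain ⟨p'', hp'', d'', hd'', hdd'', _, _, h3⟩ :=
          hdense q (hq.trans hp') e he (Set.Subset.trans hdd' hde)
        refine ⟨p'', hp'', d'', hd'', hdd'', hd'', ?_⟩
        exact h3 p'' le_rfl d'' hd'' (Set.Subset.refl _) x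
          (FM_mono hx (hp''.trans hq) (Set.Subset.trans hde hdd''))
  have hφ2 : ∀ (v v' : RN Q) (q : P0 Q) (d : RC S), v.Feq v' q → (q, d) ∈ φ v →
      (q, d) ∈ φ v' := by
    rintro v v' q d hvv' ⟨h1, h2, h3⟩
    refine ⟨h1, ?_, ?_⟩
    · intro t' ht' hl' p' hp' d' hd' hdd' hFE
      exact hN.trans _ _ _ _ (hN.symm _ _ _ (hN.mono _ _ _ _ hvv' hp'))
        (h2 t' ht' hl' p' hp' d' hd' hdd' hFE)
    · intro p' hp' d' hd' hdd' x hx
      exact hR.fmCongr _ _ _ _ _ _ (hN.mono _ _ _ _ hvv' hp') (h3 p' hp' d' hd' hdd' x hx)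
  have hφ3 : ∀ q ≤ (⊤ : P0 Q), ∀ d ∈ 𝒞, cut c (ξ : Stg Q) ⊆ d →
      ∃ q' ≤ q, ∃ d' ∈ 𝒞, d ⊆ d' ∧ ∃ v, (q', d') ∈ φ v := by
    intro q _ d hd hcd
    by_cases h : ∃ t' ∈ c, t'.2.1 = l ∧ ∃ q' ≤ q, ∃ d' ∈ 𝒞, d ⊆ d' ∧
        FE 𝒞 (S.G B) (S.G t'.1) q' d'
    · obtain ⟨t', ht', hl', q', hq', d', hd', hdd', hFE⟩ := h
      have htl : tlev t' = ξ := by show t'.2.1.1 = ξ; rw [hl']
      refine ⟨q', hq', d', hd', hdd', t'.2.2, hd', ?_, ?_⟩
      · intro t'' ht'' hl'' p hp e he hde hFE2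
        apply hOK.fn t' ht' t'' ht'' htl (hl'.trans hl''.symm) p e he
          (Set.Subset.trans hcd (Set.Subset.trans hdd' hde))
        exact FE_trans (FE_symm (FE_mono hFE hp hde)) hFE2
      · intro p hp e he hde x hx
        have h1 : FM 𝒞 x (S.G t'.1) p e := (hFE p hp e he hde x).mp hx
        have h2 := hOK.mem t' ht' htl p e he
          (Set.Subset.trans hcd (Set.Subset.trans hdd' hde)) x h1
        exact (hFE p hp e he hde _).mpr h2
    · push Not at h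
      by_cases h' : ∃ x : RN Q, ∃ q' ≤ q, ∃ d' ∈ 𝒞, d ⊆ d' ∧ FM 𝒞 x (S.G B) q' d'
      · obtain ⟨x, q', hq', d', hd', hdd', hFM⟩ := h'
        refine ⟨q', hq', d', hd', hdd', x, hd', ?_, ?_⟩
        · intro t' ht' hl' p hp e he hde hFE
          exact absurd hFE (h t' ht' hl' p (le_trans hp hq') e he (Set.Subset.trans hdd' hde))
        · intro p hp e he hde x' _
          exact FM_mono hFM hp hde
      · push Not at h'
        refine ⟨q, le_rfl, d, hd, Set.Subset.refl _, RN.zero, hd, ?_, ?_⟩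
        · intro t' ht' hl' p hp e he hde hFE
          exact absurd hFE (h t' ht' hl' p hp e he hde)
        · intro p hp e he hde x' hx'
          exact absurd hx' (h' x' p hp e he hde)
  obtain ⟨d, hd, hcd, v, hv⟩ := hfull Q S (ξ : Stg Q) ⊤ (cut c (ξ : Stg Q)) hcut φ hφ1 hφ2 hφ3
  obtain ⟨_, hv2, hv3⟩ := hv
  obtain ⟨ham1, ham2⟩ := hC.amalg ζ (ξ : Stg Q) c d hc hd hl.le hcd
  refine ⟨insert (B, l, v) (c ∪ d), ?_, ?_, v, Set.mem_insert _ _⟩
  · apply hC.add ζ (c ∪ d) (B, l, v) ham1 hl hB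
    · intro p e he hce x hx
      rw [show tlev ((B, l, v) : Trip S) = ξ from rfl, ham2] at hce
      exact hv3 p le_top e he hce x hx
    · intro t' ht' hl' p e he hce hFE
      rw [show tlev ((B, l, v) : Trip S) = ξ from rfl, ham2] at hce
      rcases ht' with ht' | ht'
      · exact hv2 t' ht' hl'.symm p le_top e he hce hFE
      · exfalso
        have h1 := CC_lev hd t' ht'
        have h2 : tlev t' = ξ := by
          show t'.2.1.1 = ξ
          rw [← (show l = t'.2.1 from hl')]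
        rw [h2] at h1
        exact lt_irrefl _ h1
  · exact Set.Subset.trans Set.subset_union_left (Set.subset_insert _ _)

end Pool.Agent.Helper46.SP
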