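import Pool.Agent.Helper84.SP.F1
import Pool.Agent.Helper94.SP.B3

/-!
# (F2a) names of reals in the symmetric system
-/

open Cardinal Set
open scoped Pointwise

namespace Pool.Agent.Helper46.SP

namespace F2a

open Pool.Agent.Helper94.SP

variable {Q : Par} {S : CodeSys Q}

/-- the name given by a sequence of sets of Cohen conditions -/
abbrev rl (S : CodeSys Q) (X : ℕ → Set (P0 Q)) : Name (P0 Q × Cnd S) :=
  Name.realName (fun q : P0 Q => ((q, ⊤) : P0 Q × Cnd S)) X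

theorem rl_eq (X : ℕ → Set (P0 Q)) : rl S X =
    Name.mk (Σ n : ℕ, {q : P0 Q // q ∈ X n}) (fun t => Name.num t.1)
      (fun t => ((t.2.1, ⊤) : P0 Q × Cnd S)) := rfl

theorem feq_rl (X Y : ℕ → Set (P0 Q)) (p : P0 Q) (c : Cnd S) :
    Name.FEq (rl S X) (rl S Y) (p, c) ↔
      (∀ n, ∀ q ∈ X n, ∀ q' ≤ p, q' ≤ q → ∃ r ≤ q', ∃ s ∈ Y n, r ≤ s) ∧
      (∀ n, ∀ q ∈ Y n, ∀ q' ≤ p, q' ≤ q → ∃ r ≤ q', ∃ s ∈ X n, r ≤ s) := by
  rw [rl_eq, rl_eq, feq_mk]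
  constructor
  · rintro ⟨h1, h2⟩
    refine ⟨?_, ?_⟩
    · intro n q hq q' hq'p hq'q
      obtain ⟨r, hr, ⟨m, s, hs⟩, hrs, hE⟩ :=
        h1 ⟨n, q, hq⟩ (q', c) ⟨hq'p, le_refl _⟩ ⟨hq'q, le_top⟩
      have hnm : n = m := num_inj hE
      subst hnm
      exact ⟨r.1, hr.1, s, hs, hrs.1⟩
    · intro n q hq q' hq'p hq'q
      obtain ⟨r, hr, ⟨m, s, hs⟩, hrs, hE⟩ :=
        h2 ⟨n, q, hq⟩ (q', c) ⟨hq'p, le_refl _⟩ ⟨hq'q, le_top⟩
      have hnm : m = n := num_inj hE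
      subst hnm
      exact ⟨r.1, hr.1, s, hs, hrs.1⟩
  · rintro ⟨h1, h2⟩
    refine ⟨?_, ?_⟩
    · rintro ⟨n, q, hq⟩ ⟨q', c'⟩ hq' hq''
      obtain ⟨r, hr, s, hs, hrs⟩ := h1 n q hq q' hq'.1 hq''.1
      exact ⟨(r, c'), ⟨hr, le_refl _⟩, ⟨n, s, hs⟩, ⟨hrs, le_top⟩, feq_refl _ _⟩
    · rintro ⟨n, q, hq⟩ ⟨q', c'⟩ hq' hq''
      obtain ⟨r, hr, s, hs, hrs⟩ := h2 n q hq q' hq'.1 hq''.1
      exact ⟨(r, c'), ⟨hr, le_refl _⟩, ⟨n, s, hs⟩, ⟨hrs, le_top⟩, feq_refl _ _⟩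

theorem reg_down {P : Type*} [Preorder P] {T : Set P} (h : IsReg T) {p q : P} (hp : p ∈ T)
    (hq : q ≤ p) : q ∈ T :=
  (h q).mpr (fun r hr => (h p).mp hp r (hr.trans hq))

theorem feq_rn (x y : RN Q) (p : P0 Q) (c : Cnd S) :
    Name.FEq (rn S x) (rn S y) (p, c) ↔ x.Feq y p := by
  have h := feq_rl (S := S) x.val y.val p c
  have e : Name.FEq (rn S x) (rn S y) (p, c) ↔ Name.FEq (rl S x.val) (rl S y.val) (p, c) := Iff.rfl
  rw [e, h]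
  constructor
  · rintro ⟨h1, h2⟩ q hq n
    constructor
    · intro hqx
      rw [y.reg n q]
      intro s hs
      obtain ⟨r, hr, t, ht, hrt⟩ := h1 n q hqx s (hs.trans hq) hs
      exact ⟨r, hr, reg_down (y.reg n) ht hrt⟩
    · intro hqy
      rw [x.reg n q]
      intro s hs
      obtain ⟨r, hr, t, ht, hrt⟩ := h2 n q hqy s (hs.trans hq) hs
      exact ⟨r, hr, reg_down (x.reg n) ht hrt⟩
  · intro hf
    refine ⟨?_, ?_⟩
    · intro n q hq q' hq'p hq'q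
      exact ⟨q', le_rfl, q', (hf q' hq'p n).mp (reg_down (x.reg n) hq hq'q), le_rfl⟩
    · intro n q hq q' hq'p hq'q
      exact ⟨q', le_rfl, q', (hf q' hq'p n).mpr (reg_down (y.reg n) hq hq'q), le_rfl⟩

theorem act_rn (g : Grp Q) (x : RN Q) : Name.act g (rn S x) =
    Name.mk (Σ n : ℕ, {q : P0 Q // q ∈ x.val n}) (fun t => Name.num t.1)
      (fun t => ((g • t.2.1, ⊤) : P0 Q × Cnd S)) := by
  show Name.act g (Name.mk _ _ _) = _
  simp only [Name.act, act_num (sys S)]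
  congr 1
  funext t
  apply Prod.ext
  · rfl
  · exact Subtype.ext Set.smul_set_empty

theorem smul_rn (g : Grp Q) (x : RN Q) (q : P0 Q × Cnd S) :
    Name.FEq (Name.act g (rn S x)) (rn S (g • x)) q := by
  have e : rn S (g • x) = Name.mk (Σ n : ℕ, {q : P0 Q // q ∈ (g • x).val n})
      (fun t => Name.num t.1) (fun t => ((t.2.1, ⊤) : P0 Q × Cnd S)) := rfl
  rw [act_rn, e, feq_mk]
  refine ⟨?_, ?_⟩
  · rintro ⟨n, s, hs⟩ r hr hrs
    exact ⟨r, le_refl _, ⟨n, g • s, Set.smul_mem_smul_set hs⟩, hrs, feq_refl _ _⟩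
  · rintro ⟨n, s, hs⟩ r hr hrs
    have hs' : g⁻¹ • s ∈ x.val n := by
      rw [RN.smul_val, Set.mem_smul_set_iff_inv_smul_mem] at hs
      exact hs
    refine ⟨r, le_refl _, ⟨n, g⁻¹ • s, hs'⟩, ?_, feq_refl _ _⟩
    show r ≤ (g • g⁻¹ • s, ⊤)
    rw [smul_inv_smul]
    exact hrs

theorem hs_rn (hN : RNFacts Q) (x : RN Q) : (sys S).IsHS (rn S x) := by
  have e : rn S x = Name.mk (Σ n : ℕ, {q : P0 Q // q ∈ x.val n})
      (fun t => Name.num t.1) (fun t => ((t.2.1, ⊤) : P0 Q × Cnd S)) := rfl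
  have hsym : (sys S).IsSym (rn S x) := by
    obtain ⟨z, hzc, hzb, hzx⟩ := hN.over_univ x
    obtain ⟨ν⟩ := F1.exLev Q
    refine ⟨fixSub z, ⟨z, ⟨ν, hzb _, ?_⟩, le_rfl⟩, ?_⟩
    · exact (Cardinal.le_aleph0_iff_set_countable.mpr hzc).trans (κ_inf ν)
    · intro g hg
      have h1 : g • x = x := by
        have := hN.smul_congr g 1 x z hzx (fun i hi => by rw [one_smul]; exact hg i hi)
        rw [this, one_smul]
      have h2 := smul_rn (S := S) g x ⊤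
      rw [h1] at h2
      exact h2
  rw [e] at hsym ⊢
  rw [isHS_mk]
  exact ⟨fun t => hs_num (sys S) t.1, hsym⟩

theorem sub_rn (x : RN Q) (z : Name (P0 Q × Cnd S)) (q : P0 Q × Cnd S)
    (h : Name.FMem z (rn S x) q) : Name.FMem z Name.omega q := by
  have e : rn S x = Name.mk (Σ n : ℕ, {q : P0 Q // q ∈ x.val n})
      (fun t => Name.num t.1) (fun t => ((t.2.1, ⊤) : P0 Q × Cnd S)) := rfl
  rw [e, fmem_mk] at h
  rw [fmem_omega]
  intro r hr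
  obtain ⟨s, hs, j, _, hE⟩ := h r hr
  exact ⟨s, hs, j.1, hE⟩

end F2a

open F2a in
theorem st_realFacts (h1 : ST_P0ccc) (h2 : ST_cfacts) (h3 : ST_P0) (h4 : ST_reals.{0})
    (h5 : ST_RN) : ST_realFacts := by
  intro Q S
  have hgood := st_good h1 h2 h3 Q S
  have hN := h5 Q
  refine ⟨?_, hs_rn hN, sub_rn, feq_rn, fun g x => smul_rn g x ⊤⟩
  intro y p c hy hsub
  obtain ⟨d, hd, X, hX, hE⟩ := h4 (P0 Q) (Cnd S) (Grp Q) (sys S) hgood y p c hy hsub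
  obtain ⟨x, hx⟩ := hN.hull X hX
  refine ⟨d, hd, x, ?_⟩
  refine Pool.Agent.Helper94.SP.feq_trans hE ?_
  show Name.FEq (rl S X) (rl S x.val) (p, d)
  rw [feq_rl]
  refine ⟨?_, ?_⟩
  · intro n q hq q' _ hq'q
    refine ⟨q', le_rfl, q', ?_, le_rfl⟩
    rw [hx]
    intro s hs
    exact ⟨s, le_rfl, q, hq, hs.trans hq'q⟩
  · intro n q hq q' _ hq'q
    rw [hx] at hq
    exact hq q' hq'q

end Pool.Agent.Helper46.SP
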