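import Pool.Agent.Helper46.SP.Sys

/-!
# (F1) the product system is good
-/

open Cardinal Set
open scoped Pointwise

namespace Pool.Agent.Helper46.SP

namespace F1

variable {Q : Par}

theorem exLev (Q : Par) : Nonempty Q.Lev := by
  obtain ⟨ν, _⟩ := Q.lev_bdd ∅ Set.countable_empty
  exact ⟨ν⟩

theorem K_inf (Q : Par) : ℵ₀ ≤ Q.K := by
  obtain ⟨ν⟩ := exLev Q
  exact (κ_inf ν).trans (Q.κ_le_K ν)

theorem mk_iUnion_le_of {α : Type} (s : ℕ → Set α) (κ : Cardinal.{0}) (hκ : ℵ₀ ≤ κ)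
    (h : ∀ n, #(s n) ≤ κ) : #(⋃ n, s n : Set α) ≤ κ := by
  refine (Cardinal.mk_iUnion_le_sum_mk).trans ?_
  refine (Cardinal.sum_le_sum _ (fun _ => κ) h).trans ?_
  rw [Cardinal.sum_const]
  simp only [Cardinal.mk_nat, Cardinal.lift_id]
  exact (Cardinal.mul_le_max_of_aleph0_le_left le_rfl).trans (max_le hκ le_rfl)

end F1

open F1 in
theorem st_good (h1 : ST_P0ccc) (h2 : ST_cfacts) (h3 : ST_P0) : ST_good := by
  intro Q S
  have hC := h2 Q S
  have hP := h3 Q
  refine ⟨h1 Q, ?_, ?_, ?_⟩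
  · intro f hf
    have hmono : ∀ m n, m ≤ n → (f m).1 ⊆ (f n).1 := by
      intro m n hmn
      induction hmn with
      | refl => exact Set.Subset.refl _
      | step _ ih => exact ih.trans (hf _)
    have hU : ⋃₀ (Set.range (fun n => (f n).1)) ∈ (CC (⊤ : Stg Q) : Set (RC S)) := by
      apply hC.directed
      · rintro _ ⟨n, rfl⟩
        exact (f n).2
      · rintro _ ⟨m, rfl⟩ _ ⟨n, rfl⟩
        exact ⟨_, ⟨max m n, rfl⟩, hmono _ _ (le_max_left _ _), hmono _ _ (le_max_right _ _)⟩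
      · rw [Set.sUnion_range]
        apply mk_iUnion_le_of _ _ (K_inf Q)
        intro n
        exact (mem_CC.mp (f n).2).1
    refine ⟨⟨_, hU⟩, fun n => ?_⟩
    show (f n).1 ⊆ ⋃₀ (Set.range (fun n => (f n).1))
    exact Set.subset_sUnion_of_mem ⟨n, rfl⟩
  · intro H hH
    choose z hz hzH using hH
    choose ν hν hνc using hz
    obtain ⟨ν', hν'⟩ := Q.lev_bdd (Set.range ν) (Set.countable_range ν)
    refine ⟨⋃ n, z n, ⟨ν', ?_, ?_⟩, ?_⟩
    · apply Set.iUnion_subset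
      intro n
      exact (hν n).trans (below_mono (by exact_mod_cast (hν' _ ⟨n, rfl⟩).le))
    · apply mk_iUnion_le_of _ _ (κ_inf ν')
      intro n
      exact (hνc n).trans (κ_mono (hν' _ ⟨n, rfl⟩).le)
    · intro g hg
      rw [Subgroup.mem_iInf]
      intro n
      apply hzH n
      intro i hi
      exact hg i (Set.mem_iUnion.mpr ⟨n, hi⟩)
  · intro p
    obtain ⟨z, hzf, hzb, hzr⟩ := hP.fin_supp p
    obtain ⟨ν⟩ := exLev Q
    refine ⟨z, ⟨ν, hzb _, ?_⟩, ?_⟩
    · exact (Cardinal.lt_aleph0_iff_finite.mpr hzf).le.trans (κ_inf ν)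
    · intro g hg
      show g • p = p
      have := hP.smul_congr g 1 p z hzr (fun i hi => by rw [one_smul]; exact hg i hi)
      rw [this, one_smul]

end Pool.Agent.Helper46.SP
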